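import Pool.Agent.Helper86.AP.Goals

/-!
# Project AP (MP_bec853_al), packet CN2: words in which two letters occur exactly once
-/

set_option autoImplicit false

namespace Pool.Agent.Helper49.AP

open Pool.Agent.Helper35.PP Pool.Agent.Helper35.PX Pool.Agent.Helper86.AP
open scoped ENNReal

section

variable {β : Type}

theorem split_one (p : β → Bool) : ∀ c : List β, c.countP p = 1 →
    ∃ u x v, c = u ++ x :: v ∧ p x = true ∧ (∀ y ∈ u, p y = false) ∧ ∀ y ∈ v, p y = false := by
  intro c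
  induction c with
  | nil =>
    intro h
    rw [List.countP_nil] at h
    exact absurd h (by omega)
  | cons a c ih =>
    intro h
    rw [List.countP_cons] at h
    cases hp : p a with
    | true =>
      rw [hp, if_pos rfl] at h
      have h1 : c.countP p = 0 := by omega
      rw [List.countP_eq_zero] at h1
      refine ⟨[], a, c, rfl, hp, ?_, ?_⟩
      · intro y hy
        exact absurd hy List.not_mem_nil
      · intro y hy
        have h2 := h1 y hy
        cases hq : p y with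
        | true => exact absurd hq h2
        | false => rfl
    | false =>
      rw [hp, if_neg (by decide)] at h
      obtain ⟨u, x, v, rfl, hx, hu, hv⟩ := ih (by omega)
      refine ⟨a :: u, x, v, rfl, hx, ?_, hv⟩
      intro y hy
      rw [List.mem_cons] at hy
      rcases hy with rfl | hy
      · exact hp
      · exact hu y hy

end

section

variable {α : Type} [Fintype α] [DecidableEq α]

/-- one letter -/
def L1 (α : Type) [Fintype α] : Set (List (α × Bool)) := ⋃ x ∈ (Finset.univ : Finset (α × Bool)), {[x]}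

theorem mem_L1 (x : α × Bool) : [x] ∈ L1 α :=
  Set.mem_biUnion (Finset.mem_univ x) rfl

theorem W_L1 (z : ℝ≥0∞) (hz : z ≠ ⊤) : W z (L1 α) < ⊤ := by
  refine lt_of_le_of_lt (W_biUnion_le z _ _) ?_
  rw [ENNReal.sum_lt_top]
  intro x _
  rw [W_singleton]
  exact ENNReal.pow_lt_top hz.lt_top

theorem W_Yl {i j : α} (hij : i ≠ j) (hr : 100 ≤ Fintype.card α) :
    W (ENNReal.ofReal (z0 α)) (Zr (Yl i j)) < ⊤ := by
  have hR : (100 : ℝ) ≤ Fintype.card α := by exact_mod_cast hr
  have hq : 0 < 2 * (Fintype.card α : ℝ) - 3 := by linarith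
  apply W_Zr (Yl_nv i j) (z0_pos hr).le (Φ := (2 * (Fintype.card α : ℝ) - 3) / 2) (by positivity)
  have hcard : ((Yl i j).card : ℝ) = 2 * (Fintype.card α : ℝ) - 4 := by
    rw [Yl_card hij, Nat.cast_sub (by omega)]
    push_cast
    ring
  rw [hcard]
  unfold z0
  have h1 : 1 / (2 * (Fintype.card α : ℝ) - 3) * ((2 * (Fintype.card α : ℝ) - 3) / 2) = 1 / 2 := by
    field_simp
  rw [h1]
  linarith

theorem mem_five {i j : α} {u v w : List (α × Bool)} {x y : α × Bool}
    (hc : (u ++ x :: (v ++ y :: w)).IsChain (fun x y => y ≠ nv x))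
    (hu : ∀ l ∈ u, l.1 ≠ i ∧ l.1 ≠ j) (hv : ∀ l ∈ v, l.1 ≠ i ∧ l.1 ≠ j)
    (hw : ∀ l ∈ w, l.1 ≠ i ∧ l.1 ≠ j) :
    u ++ x :: (v ++ y :: w) ∈ app (Zr (Yl i j)) (app (L1 α) (app (Zr (Yl i j)) (app (L1 α)
      (Zr (Yl i j))))) := by
  have hZ : ∀ t : List (α × Bool), t.IsChain (fun x y => y ≠ nv x) →
      (∀ l ∈ t, l.1 ≠ i ∧ l.1 ≠ j) → t ∈ Zr (Yl i j) := by
    intro t h1 h2
    refine ⟨fun l hl => ?_, h1⟩
    unfold Yl
    rw [Finset.mem_filter]
    exact ⟨Finset.mem_univ _, h2 l hl⟩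
  have h1 := List.isChain_append.1 hc
  have h2 := (List.isChain_append.1 (h1.2.1.tail)).2.1.tail
  have h3 := (List.isChain_append.1 (h1.2.1.tail)).1
  exact ⟨u, hZ u h1.1 hu, _, ⟨[x], mem_L1 x, _, ⟨v, hZ v h3 hv, _, ⟨[y], mem_L1 y, w,
    hZ w h2 hw, rfl⟩, rfl⟩, rfl⟩, rfl⟩

end

theorem tCN2 : Pool.Agent.Helper86.AP.S_CN2 := by
  intro α _ _ i j hij hr
  have hsub : {c : List (α × Bool) | c.IsChain (fun x y => y ≠ nv x) ∧
      c.countP (fun x => x.1 = i) = 1 ∧ c.countP (fun x => x.1 = j) = 1} ⊆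
      app (Zr (Yl i j)) (app (L1 α) (app (Zr (Yl i j)) (app (L1 α) (Zr (Yl i j))))) := by
    rintro c ⟨hc, h1, h2⟩
    obtain ⟨u, x, v, rfl, hx, hu, hv⟩ := split_one _ c h1
    have hx' : x.1 = i := of_decide_eq_true hx
    rw [List.countP_append, List.countP_cons, if_neg (by
      rw [decide_eq_true_eq, hx']
      exact hij), add_zero] at h2
    have hu' : ∀ y ∈ u, y.1 ≠ i := fun y hy => of_decide_eq_false (hu y hy)
    have hv' : ∀ y ∈ v, y.1 ≠ i := fun y hy => of_decide_eq_false (hv y hy)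
    have hz : ∀ t : List (α × Bool), t.countP (fun x => decide (x.1 = j)) = 0 →
        ∀ y ∈ t, y.1 ≠ j := by
      intro t ht y hy hyj
      rw [List.countP_eq_zero] at ht
      exact ht y hy (decide_eq_true hyj)
    rcases Nat.eq_zero_or_pos (u.countP (fun x => decide (x.1 = j))) with h3 | h3
    · rw [h3, zero_add] at h2
      obtain ⟨v1, y, v2, rfl, hy, hv1, hv2⟩ := split_one _ v h2
      refine mem_five hc (fun l hl => ⟨hu' l hl, hz u h3 l hl⟩) (fun l hl => ⟨hv' l ?_, ?_⟩)
        (fun l hl => ⟨hv' l ?_, ?_⟩)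
      · exact List.mem_append_left _ hl
      · exact of_decide_eq_false (hv1 l hl)
      · exact List.mem_append_right _ (List.mem_cons_of_mem _ hl)
      · exact of_decide_eq_false (hv2 l hl)
    · have h4 : v.countP (fun x => decide (x.1 = j)) = 0 := by omega
      have h5 : u.countP (fun x => decide (x.1 = j)) = 1 := by omega
      obtain ⟨u1, y, u2, rfl, hy, hu1, hu2⟩ := split_one _ u h5
      rw [List.append_assoc, List.cons_append] at hc ⊢
      refine mem_five hc (fun l hl => ⟨hu' l ?_, ?_⟩) (fun l hl => ⟨hu' l ?_, ?_⟩)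
        (fun l hl => ⟨hv' l hl, hz v h4 l hl⟩)
      · exact List.mem_append_left _ hl
      · exact of_decide_eq_false (hu1 l hl)
      · exact List.mem_append_right _ (List.mem_cons_of_mem _ hl)
      · exact of_decide_eq_false (hu2 l hl)
  refine lt_of_le_of_lt (W_mono hsub) ?_
  have hY := W_Yl hij hr
  have hL := W_L1 (α := α) (ENNReal.ofReal (z0 α)) ENNReal.ofReal_ne_top
  refine lt_of_le_of_lt (W_app_le _ _ _) (ENNReal.mul_lt_top hY ?_)
  refine lt_of_le_of_lt (W_app_le _ _ _) (ENNReal.mul_lt_top hL ?_)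
  refine lt_of_le_of_lt (W_app_le _ _ _) (ENNReal.mul_lt_top hY ?_)
  exact lt_of_le_of_lt (W_app_le _ _ _) (ENNReal.mul_lt_top hL hY)

end Pool.Agent.Helper49.AP
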