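import Pool.Agent.Helper86.AP.Goals

/-!
# Project AP (MP_bec853_al), packet LEL: from periodicity to low entropy
-/

set_option autoImplicit false

namespace Pool.Agent.Helper49.AP

open Pool.Agent.Helper35.PP Pool.Agent.Helper35.PX Pool.Agent.Helper86.AP

section

variable {β : Type} {M : Set (List β)}

theorem fcl (hM : FactorClosed M) {u : List β} (hu : u ∈ M) (a b : ℕ) :
    (u.take b).drop a ∈ M := by
  have h1 : (u.take b).take a ++ (u.take b).drop a ++ u.drop b = u := by
    rw [List.take_append_drop, List.take_append_drop]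
  exact hM _ _ _ (h1.symm ▸ hu)

theorem mp_mono (h0 : ([] : List β) ∈ M) {k : ℕ} {w : List β} (hw : w ∈ Mp M k) :
    w ∈ Mp M (k + 1) := ⟨[], h0, w, hw, rfl⟩

theorem mp_le (h0 : ([] : List β) ∈ M) {j k : ℕ} (hjk : j ≤ k) {w : List β} (hw : w ∈ Mp M j) :
    w ∈ Mp M k := by
  induction hjk with
  | refl => exact hw
  | step _ ih => exact mp_mono h0 ih

theorem mp_app {j k : ℕ} : ∀ {u v : List β}, u ∈ Mp M j → v ∈ Mp M k →
    u ++ v ∈ Mp M (j + k) := by
  induction j with
  | zero =>
    intro u v hu hv
    have h1 : u = [] := hu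
    subst h1
    rw [List.nil_append, Nat.zero_add]
    exact hv
  | succ j ih =>
    rintro u v ⟨x, hx, y, hy, rfl⟩ hv
    rw [show j + 1 + k = (j + k) + 1 by omega]
    exact ⟨x, hx, y ++ v, ih hy hv, List.append_assoc _ _ _⟩

theorem mp_fac (hM : FactorClosed M) (k : ℕ) : ∀ (w : List β) (a b : ℕ), w ∈ Mp M k →
    (w.take b).drop a ∈ Mp M k := by
  induction k with
  | zero =>
    intro w a b hw
    have h1 : w = [] := hw
    subst h1
    rw [List.take_nil, List.drop_nil]
    exact hw
  | succ k ih =>
    rintro w a b ⟨x, hx, y, hy, rfl⟩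
    rw [List.take_append, List.drop_append]
    exact ⟨_, fcl hM hx _ _, _, ih y _ _ hy, rfl⟩

/-- intervals to the right of `R` -/
theorem int_right (hM : FactorClosed M) {a : List β} {R x y : ℕ} (hR : a.drop R ∈ Mp M 2)
    (hx : R ≤ x) : (a.take y).drop x ∈ Mp M 2 := by
  have h1 : (a.take y).drop x = ((a.drop R).take (y - R)).drop (x - R) := by
    rw [← List.drop_take, List.drop_drop, Nat.add_sub_cancel' hx]
  rw [h1]
  exact mp_fac hM 2 _ _ _ hR

/-- short intervals -/
theorem int_short (hM : FactorClosed M) (h0 : ([] : List β) ∈ M) {a : List β} {E R q : ℕ}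
    (hRa : R ≤ a.length) (hq : 1 ≤ q)
    (hper : ∀ h, E ≤ h → h < R → h + q < a.length ∧ a[h]? = a[h + q]?)
    (hR : a.drop R ∈ Mp M 2) (m : ℕ) : ∀ x y : ℕ, R - x ≤ m → E ≤ x → y ≤ a.length → y ≤ x + q →
    (a.take y).drop x ∈ Mp M 4 := by
  have hsh : ∀ x y : ℕ, E ≤ x → y ≤ R → x < y →
      (a.take y).drop x = (a.take (y + q)).drop (x + q) := by
    intro x y hx hy hxy
    have hyq : y + q ≤ a.length := by
      have := (hper (y - 1) (by omega) (by omega)).1
      omega
    apply List.ext_getElem?
    intro h
    rw [List.getElem?_drop, List.getElem?_drop, List.getElem?_take, List.getElem?_take]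
    by_cases h1 : x + h < y
    · rw [if_pos h1, if_pos (by omega), (hper (x + h) (by omega) (by omega)).2]
      congr 1
      omega
    · rw [if_neg h1, if_neg (by omega)]
  induction m with
  | zero =>
    intro x y h1 h2 h3 h4
    exact mp_le h0 (by omega) (int_right hM hR (by omega))
  | succ m ih =>
    intro x y h1 h2 h3 h4
    by_cases h5 : R ≤ x
    · exact mp_le h0 (by omega) (int_right hM hR h5)
    by_cases h6 : y ≤ x
    · have h7 : (a.take y).drop x = [] := by
        rw [List.drop_eq_nil_iff, List.length_take]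
        omega
      rw [h7]
      exact ⟨[], h0, _, ⟨[], h0, _, ⟨[], h0, _, ⟨[], h0, [], rfl, rfl⟩, rfl⟩, rfl⟩, rfl⟩
    by_cases h7 : y ≤ R
    · rw [hsh x y h2 h7 (by omega)]
      have hyq : y + q ≤ a.length := by
        have := (hper (y - 1) (by omega) (by omega)).1
        omega
      exact ih (x + q) (y + q) (by omega) (by omega) hyq (by omega)
    · have h8 : (a.take y).drop x = (a.take R).drop x ++ (a.take y).drop R := by
        have h9 : a.take y = a.take R ++ (a.take y).drop R := by
          conv_lhs => rw [← List.take_append_drop R (a.take y)]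
          rw [List.take_take, min_eq_left (by omega)]
        conv_lhs => rw [h9]
        rw [List.drop_append_of_le_length]
        rw [List.length_take]
        omega
      rw [h8, hsh x R h2 le_rfl (by omega)]
      exact mp_app (j := 2) (k := 2) (int_right hM hR (by omega)) (int_right hM hR le_rfl)

end

theorem tLEL : Pool.Agent.Helper86.AP.S_LEL := by
  intro β M a E l1 hM hP hE hl
  obtain ⟨R, q, hER, hRa, hq, hper, hR⟩ := hP
  have h0 : ([] : List β) ∈ M := by
    obtain ⟨u, hu, _⟩ := hR
    exact hM [] [] u hu
  refine ⟨(a.take l1).drop (max E (min R (l1 - q))), ?_, ?_, q, hq, ?_⟩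
  · by_cases h1 : R ≤ l1 - q
    · exact mp_le h0 (by omega) (int_right hM hR (by omega))
    · exact mp_le h0 (show 4 ≤ 6 by omega)
        (int_short hM h0 hRa hq hper hR R _ _ (by omega) (by omega) hl (by omega))
  · have h1 : (a.take l1).drop (max E (min R (l1 - q))) =
        ((a.take l1).drop E).drop (max E (min R (l1 - q)) - E) := by
      rw [List.drop_drop]
      congr 1
      omega
    rw [h1]
    exact List.drop_suffix _ _
  · intro h hh
    rw [List.length_drop, List.length_drop, List.length_take] at hh
    rw [List.getElem?_drop, List.getElem?_drop, List.getElem?_take, List.getElem?_take,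
      if_pos (by omega), if_pos (by omega), (hper (E + h) (by omega) (by omega)).2]
    congr 1
    omega

end Pool.Agent.Helper49.AP
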