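import Pool.Agent.Helper86.AP.Goals

/-!
# Project AP (MP_bec853_al), packet NG2: words without the letter `i`
-/

set_option autoImplicit false

namespace Pool.Agent.Helper49.AP

open Pool.Agent.Helper35.PP Pool.Agent.Helper35.PX Pool.Agent.Helper86.AP

section

variable {α : Type} [Fintype α] [DecidableEq α]

theorem card_Zi (i : α) : (Zi i).card + 2 = 2 * Fintype.card α := by
  have h1 : (Finset.univ.filter (fun x : α × Bool => x.1 = i)).card = 2 := by
    have h2 : Finset.univ.filter (fun x : α × Bool => x.1 = i) = {(i, true), (i, false)} := by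
      ext ⟨x, b⟩
      cases b <;> simp
    rw [h2, Finset.card_pair (by simp)]
  have h3 := Finset.card_filter_add_card_filter_not (s := (Finset.univ : Finset (α × Bool)))
    (fun x => x.1 = i)
  rw [h1, Finset.card_univ, Fintype.card_prod, Fintype.card_bool] at h3
  have h4 : 2 + (Zi i).card = Fintype.card α * 2 := by
    unfold Zi
    convert h3 using 2
  omega

/-- words which may follow the letter `l` -/
def fw (i : α) : ℕ → α × Bool → Finset (List (α × Bool))
  | 0, _ => {[]}
  | n + 1, l => ((Zi i).erase (nv l)).biUnion fun y => (fw i n y).image (List.cons y)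

theorem card_fw (i : α) (n : ℕ) : ∀ l ∈ Zi i, (fw i n l).card ≤ ((Zi i).card - 1) ^ n := by
  induction n with
  | zero =>
    intro l _
    exact le_of_eq rfl
  | succ n ih =>
    intro l hl
    have h1 : ((Zi i).erase (nv l)).card = (Zi i).card - 1 :=
      Finset.card_erase_of_mem (Zi_nv i l hl)
    rw [pow_succ', ← h1]
    refine Finset.card_biUnion_le_card_mul _ _ _ fun y hy => ?_
    refine Finset.card_image_le.trans ?_
    rw [h1]
    exact ih y (Finset.mem_of_mem_erase hy)

theorem mem_fw (i : α) : ∀ (c : List (α × Bool)) (l : α × Bool),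
    (l :: c).IsChain (fun x y => y ≠ nv x) → (∀ x ∈ c, x.1 ≠ i) → c ∈ fw i c.length l := by
  intro c
  induction c with
  | nil =>
    intro l _ _
    exact Finset.mem_singleton_self _
  | cons y c ih =>
    intro l h1 h2
    rw [List.isChain_cons_cons] at h1
    rw [List.length_cons]
    unfold fw
    rw [Finset.mem_biUnion]
    refine ⟨y, Finset.mem_erase.2 ⟨h1.1, mem_Zi.2 (h2 y List.mem_cons_self)⟩, ?_⟩
    exact Finset.mem_image_of_mem _ (ih y h1.2 fun x hx => h2 x (List.mem_cons_of_mem _ hx))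

theorem ncard_le (i : α) (n : ℕ) : {c : List (α × Bool) | c.IsChain (fun x y => y ≠ nv x) ∧
    c.length = n + 1 ∧ ∀ x ∈ c, x.1 ≠ i}.ncard ≤ (Zi i).card * ((Zi i).card - 1) ^ n := by
  have h1 : {c : List (α × Bool) | c.IsChain (fun x y => y ≠ nv x) ∧
      c.length = n + 1 ∧ ∀ x ∈ c, x.1 ≠ i} ⊆
      (((Zi i).biUnion fun y => (fw i n y).image (List.cons y) : Finset (List (α × Bool))) :
        Set (List (α × Bool))) := by
    rintro c ⟨h2, h3, h4⟩
    match c, h2, h3, h4 with
    | y :: c, h2, h3, h4 =>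
      rw [List.length_cons] at h3
      have h5 : c.length = n := by omega
      subst h5
      rw [Finset.mem_coe, Finset.mem_biUnion]
      refine ⟨y, mem_Zi.2 (h4 y List.mem_cons_self), ?_⟩
      exact Finset.mem_image_of_mem _ (mem_fw i c y h2 fun x hx =>
        h4 x (List.mem_cons_of_mem _ hx))
  refine (Set.ncard_le_ncard h1 (Finset.finite_toSet _)).trans ?_
  rw [Set.ncard_coe_finset]
  refine Finset.card_biUnion_le_card_mul _ _ _ fun y hy => ?_
  exact Finset.card_image_le.trans (card_fw i n y hy)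

end

theorem tNG2 : Pool.Agent.Helper86.AP.S_NG2 := by
  intro α _ _ i hr
  have hZ := card_Zi i
  obtain ⟨N, hN⟩ : ∃ N, (Zi i).card = N + 1 := ⟨(Zi i).card - 1, by omega⟩
  have hN1 : 1 ≤ N := by omega
  have hNr : (N : ℝ) = 2 * (Fintype.card α : ℝ) - 3 := by
    have h1 : N + 3 = 2 * Fintype.card α := by omega
    have h2 : ((N + 3 : ℕ) : ℝ) = ((2 * Fintype.card α : ℕ) : ℝ) := by rw [h1]
    push_cast at h2
    linarith
  have hz : z0 α = 1 / (N : ℝ) := by
    unfold z0
    rw [hNr]
  have hNp : (1 : ℝ) ≤ (N : ℝ) := by exact_mod_cast hN1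
  refine squeeze_zero' (g := fun n : ℕ => (2 : ℝ) / (n : ℝ)) ?_ ?_
    (tendsto_const_div_atTop_nhds_zero_nat 2)
  · refine Filter.Eventually.of_forall fun n => ?_
    rw [hz]
    positivity
  · rw [Filter.eventually_atTop]
    refine ⟨1, fun n hn => ?_⟩
    obtain ⟨m, rfl⟩ : ∃ m, n = m + 1 := ⟨n - 1, by omega⟩
    refine div_le_div_of_nonneg_right ?_ (Nat.cast_nonneg _)
    have h1 := ncard_le i m
    rw [hN, Nat.add_sub_cancel] at h1
    have h2 : (({c : List (α × Bool) | c.IsChain (fun x y => y ≠ nv x) ∧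
        c.length = m + 1 ∧ ∀ x ∈ c, x.1 ≠ i}.ncard : ℕ) : ℝ) ≤ ((N : ℝ) + 1) * (N : ℝ) ^ m := by
      exact_mod_cast h1
    have h3 : (0 : ℝ) ≤ z0 α ^ (m + 1) := by
      rw [hz]
      positivity
    refine (mul_le_mul_of_nonneg_right h2 h3).trans ?_
    rw [hz, div_pow, one_pow, pow_succ]
    have h4 : (0 : ℝ) < (N : ℝ) ^ m := by positivity
    rw [mul_one_div, div_le_iff₀ (by positivity)]
    nlinarith

end Pool.Agent.Helper49.AP
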